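import Mathlib

set_option autoImplicit false

namespace Pool.Agent.MP_c9a892_co.H35

open Finset

/-- The digit of `w` of weight `p ^ g`. -/
def dig (p g w : ℕ) : ℕ := w / p ^ g % p

theorem dig_congr {p g w w' : ℕ} (h : w ≡ w' [MOD p ^ (g + 1)]) : dig p g w = dig p g w' := by
  unfold dig
  rw [← Nat.mod_mul_right_div_self, ← Nat.mod_mul_right_div_self, ← pow_succ, h]

theorem dig_mod {p g G : ℕ} (hg : g < G) (w : ℕ) : dig p g (w % p ^ G) = dig p g w :=
  dig_congr ((Nat.mod_modEq w _).of_dvd (pow_dvd_pow p hg))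

theorem exists_res {p : ℕ} (hp : p.Prime) {u : ℕ} (hu : ¬ p ∣ u) (y : ℕ) {τ : ℕ} (hτ : τ < p) :
    ∃ a < p, (y + a * u) % p = τ := by
  have := Fact.mk hp
  have hu0 : (u : ZMod p) ≠ 0 := fun h => hu ((ZMod.natCast_eq_zero_iff u p).1 h)
  refine ⟨(((τ : ZMod p) - y) * (u : ZMod p)⁻¹).val, ZMod.val_lt _, ?_⟩
  have : ((y + (((τ : ZMod p) - y) * (u : ZMod p)⁻¹).val * u : ℕ) : ZMod p) = (τ : ZMod p) := by
    push_cast
    rw [ZMod.natCast_zmod_val, mul_assoc, inv_mul_cancel₀ hu0]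
    ring
  have h2 := (ZMod.natCast_eq_natCast_iff' _ _ _).1 this
  rw [h2, Nat.mod_eq_of_lt hτ]

theorem card_dig_le {p G g q : ℕ} (hp : 0 < p) (hg : g < G) (x : ℕ) :
    (univ.filter fun ρ : Fin (p ^ G) => dig p g ((x + ρ) % p ^ G) < q).card
      ≤ q * p ^ (G - 1) := by
  have hQ : 0 < p ^ G := pow_pos hp G
  have h1 := card_le_card_of_injOn
    (s := univ.filter fun ρ : Fin (p ^ G) => dig p g ((x + ρ) % p ^ G) < q)
    (t := range (p ^ g) ×ˢ range q ×ˢ range (p ^ (G - 1 - g)))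
    (fun ρ => (((x + ρ) % p ^ G) % p ^ g, dig p g ((x + ρ) % p ^ G),
      ((x + ρ) % p ^ G) / p ^ (g + 1))) ?_ ?_
  · refine h1.trans (le_of_eq ?_)
    rw [card_product, card_product, card_range, card_range, card_range]
    have : G - 1 = g + (G - 1 - g) := by omega
    conv_rhs => rw [this, pow_add]
    ring
  · intro ρ hρ
    have hρ' := (mem_filter.1 hρ).2
    simp only [coe_product, coe_range, Set.mem_prod, Set.mem_Iio]
    refine ⟨Nat.mod_lt _ (pow_pos hp g), hρ', ?_⟩
    rw [Nat.div_lt_iff_lt_mul (pow_pos hp _), ← pow_add]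
    have : G - 1 - g + (g + 1) = G := by omega
    rw [this]
    exact Nat.mod_lt _ hQ
  · intro ρ _ ρ' _ h
    simp only [Prod.mk.injEq] at h
    obtain ⟨e1, e2, e3⟩ := h
    have hre : ∀ w : ℕ, w = w % p ^ g + p ^ g * (dig p g w + p * (w / p ^ (g + 1))) := by
      intro w
      unfold dig
      rw [pow_succ, ← Nat.div_div_eq_div_mul, Nat.mod_add_div, Nat.mod_add_div]
    have e : (x + ρ) % p ^ G = (x + ρ') % p ^ G := by
      have a1 := hre ((x + ρ) % p ^ G)
      have a2 := hre ((x + ρ') % p ^ G)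
      rw [e1, e2, e3] at a1
      exact a1.trans a2.symm
    have e' : (ρ : ℕ) ≡ ρ' [MOD p ^ G] := Nat.ModEq.add_left_cancel' x e
    exact Fin.ext (Nat.ModEq.eq_of_lt_of_lt e' ρ.2 ρ'.2)

/-- The type of a block: sparse, and along a progression either constant or onto. -/
theorem exists_block (T : Type) [Fintype T] [DecidableEq T] {p : ℕ} (G : ℕ) (hp : p.Prime)
    (hT : Fintype.card T ≤ p) : ∃ ty : ℕ → Option T,
    (∀ x : ℕ, (univ.filter fun ρ : Fin (p ^ G) => ty ((x + ρ) % p ^ G) ≠ none).card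
      ≤ G * (Fintype.card T * p ^ (G - 1))) ∧
    ∀ z u : ℕ, ¬ p ^ G ∣ u → (∃ τ, ∀ a < p, ty ((z + a * u) % p ^ G) = some τ) ∨
      ∀ τ, ∃ a < p, ty ((z + a * u) % p ^ G) = some τ := by
  classical
  let ty : ℕ → Option T := fun w =>
    if h : ∃ g, g < G ∧ dig p g w < Fintype.card T then
      some ((Fintype.equivFin T).symm ⟨dig p (Nat.find h) w, (Nat.find_spec h).2⟩) else none
  have hty : ∀ w g (τ : T), g < G → dig p g w = Fintype.equivFin T τ →
      (∀ g' < g, ¬ dig p g' w < Fintype.card T) → ty w = some τ := by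
    intro w g τ hg hd hmin
    have hlt : dig p g w < Fintype.card T := hd ▸ (Fintype.equivFin T τ).2
    have h : ∃ g, g < G ∧ dig p g w < Fintype.card T := ⟨g, hg, hlt⟩
    have hf : Nat.find h = g :=
      (Nat.find_eq_iff h).2 ⟨⟨hg, hlt⟩, fun g' hg' hh => hmin g' hg' hh.2⟩
    simp only [ty, dif_pos h]
    congr 1
    rw [Equiv.symm_apply_eq]
    apply Fin.ext
    simp only [hf, hd]
  refine ⟨ty, fun x => ?_, fun z u hu => ?_⟩
  · have hsub : (univ.filter fun ρ : Fin (p ^ G) => ty ((x + ρ) % p ^ G) ≠ none) ⊆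
        (range G).biUnion fun g => univ.filter fun ρ : Fin (p ^ G) =>
          dig p g ((x + ρ) % p ^ G) < Fintype.card T := by
      intro ρ hρ
      have h1 := (mem_filter.1 hρ).2
      by_cases h : ∃ g, g < G ∧ dig p g ((x + ρ) % p ^ G) < Fintype.card T
      · obtain ⟨g, hg, hd⟩ := h
        exact mem_biUnion.2 ⟨g, mem_range.2 hg, mem_filter.2 ⟨mem_univ _, hd⟩⟩
      · exact absurd (by simp only [ty, dif_neg h]) h1
    refine (card_le_card hsub).trans (card_biUnion_le.trans ?_)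
    have := sum_le_card_nsmul (range G) _ (Fintype.card T * p ^ (G - 1))
      fun g hg => card_dig_le (q := Fintype.card T) hp.pos (mem_range.1 hg) x
    rwa [card_range, smul_eq_mul] at this
  · have hu0 : u ≠ 0 := fun h => hu (h ▸ dvd_zero _)
    obtain ⟨g0, u', hu', rfl⟩ := Nat.exists_eq_pow_mul_and_not_dvd hu0 p hp.ne_one
    have hg0 : g0 < G := by
      by_contra h
      exact hu ((pow_dvd_pow p (not_lt.1 h)).mul_right _)
    have hlow : ∀ a, ∀ g < g0, dig p g ((z + a * (p ^ g0 * u')) % p ^ G) = dig p g z := by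
      intro a g hg
      rw [dig_mod (hg.trans hg0)]
      refine dig_congr ?_
      have : p ^ (g + 1) ∣ a * (p ^ g0 * u') := ((pow_dvd_pow p hg).mul_right _).mul_left _
      exact (Nat.modEq_iff_dvd' (Nat.le_add_right _ _)).2 (by simpa using this) |>.symm
    by_cases h : ∃ g, g < g0 ∧ dig p g z < Fintype.card T
    · left
      refine ⟨(Fintype.equivFin T).symm ⟨dig p (Nat.find h) z, (Nat.find_spec h).2⟩,
        fun a _ => hty _ (Nat.find h) _ ((Nat.find_spec h).1.trans hg0) ?_ ?_⟩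
      · rw [hlow a _ (Nat.find_spec h).1, Equiv.apply_symm_apply]
      · intro g' hg' hh
        rw [hlow a _ (hg'.trans (Nat.find_spec h).1)] at hh
        exact Nat.find_min h hg' ⟨hg'.trans (Nat.find_spec h).1, hh⟩
    · right
      intro τ
      obtain ⟨a, ha, hres⟩ := exists_res hp hu' (z / p ^ g0)
        ((Fintype.equivFin T τ).2.trans_le hT)
      refine ⟨a, ha, hty _ g0 τ hg0 ?_ ?_⟩
      · rw [dig_mod hg0, ← hres]
        unfold dig
        have : z + a * (p ^ g0 * u') = z + p ^ g0 * (a * u') := by ring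
        rw [this, Nat.add_mul_div_left _ _ (pow_pos hp.pos g0)]
      · intro g' hg' hh
        rw [hlow a _ hg'] at hh
        exact h ⟨g', hg', hh⟩

end Pool.Agent.MP_c9a892_co.H35
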