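import Mathlib

set_option autoImplicit false

namespace Pool.Agent.MP_c9a892_co.H35

open Finset

/-- Every two-colouring of the cube has a monochromatic geometric line. -/
def Forces (n d : ℕ) : Prop :=
  ∀ col : (Fin d → Fin n) → Bool, ∃ x : Fin n → Fin d → Fin n,
    (Function.Injective x ∧
      ∀ j, (∃ c, ∀ i, x i j = c) ∨ (∀ i, x i j = i) ∨ ∀ i, x i j = i.rev) ∧
    ∃ b, ∀ i, col (x i) = b

theorem exists_forces (n : ℕ) : ∃ d, Forces n d := by
  classical
  obtain ⟨ι, hι, h⟩ := Combinatorics.Line.exists_mono_in_high_dimension (Fin n) Bool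
  let e := Fintype.equivFin ι
  refine ⟨Fintype.card ι, fun col => ?_⟩
  obtain ⟨l, b, hb⟩ := h fun y => col fun j => y (e.symm j)
  refine ⟨fun i j => l i (e.symm j), ⟨?_, fun j => ?_⟩, b, hb⟩
  · obtain ⟨j, hj⟩ := l.proper
    intro i i' hii
    have := congrFun hii (e j)
    simpa only [Equiv.symm_apply_apply, Combinatorics.Line.apply_none _ _ _ hj] using this
  · cases hj : l.idxFun (e.symm j) with
    | none => exact Or.inr (Or.inl fun i => Combinatorics.Line.apply_none _ _ _ hj)
    | some c => exact Or.inl ⟨c, fun i => Combinatorics.Line.apply_some hj⟩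

/-- A colouring without monochromatic L-shape gives a colouring without monochromatic line. -/
theorem le_of_forces {n p N d : ℕ} (hp : 0 < p) (hn : 4 * p ≤ n) (χ : ℕ → ℕ → Bool)
    (hχ : ∀ b₁ b₂ t : ℕ, 0 < t → t < N → ∀ c : Bool,
      ¬ ∀ a < p, χ (b₁ + a * t) b₂ = c ∧ χ b₁ (b₂ + a * t) = c) (h : Forces n d) : N ≤ d := by
  classical
  by_contra hlt
  let f : Fin n → ℕ := fun a => min a.val a.rev.val
  have hf : ∀ a : Fin n, f a.rev = f a := by
    intro a
    simp only [f, Fin.rev_rev, min_comm]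
  let φ₁ : Fin n → ℕ := fun a => if f a < p then f a else 0
  let φ₂ : Fin n → ℕ := fun a => if f a < 2 * p then f a - p else 0
  obtain ⟨x, ⟨hinj, hx⟩, c, hc⟩ := h fun y => χ (∑ j, φ₁ (y j)) (∑ j, φ₂ (y j))
  let M : Finset (Fin d) := univ.filter fun j => ¬ ∃ c, ∀ i, x i j = c
  let i0 : Fin n := ⟨0, by omega⟩
  have hsum : ∀ φ : Fin n → ℕ, (∀ a : Fin n, φ a.rev = φ a) → ∀ i,
      ∑ j, φ (x i j) = ∑ j ∈ Mᶜ, φ (x i0 j) + φ i * M.card := by
    intro φ hφ i
    rw [← sum_compl_add_sum M]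
    congr 1
    · refine sum_congr rfl fun j hj => ?_
      have : ∃ c, ∀ i, x i j = c := by simpa only [M, mem_compl, mem_filter, mem_univ, true_and,
        not_not] using hj
      obtain ⟨c, hc⟩ := this
      rw [hc i, hc i0]
    · rw [mul_comm, ← smul_eq_mul, ← sum_const]
      refine sum_congr rfl fun j hj => ?_
      rcases hx j with h0 | h0 | h0
      · exact absurd h0 (mem_filter.1 hj).2
      · rw [h0 i]
      · rw [h0 i, hφ]
  have hM : 0 < M.card := by
    rw [card_pos]
    by_contra hM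
    have : x i0 = x ⟨1, by omega⟩ := by
      funext j
      by_contra hj
      exact hM ⟨j, mem_filter.2 ⟨mem_univ _, fun ⟨c, hc⟩ => hj (by rw [hc, hc])⟩⟩
    have := congrArg Fin.val (hinj this)
    simp [i0] at this
  have hMd : M.card ≤ d := (card_le_univ M).trans (Fintype.card_fin d).le
  have h1 := hsum φ₁ fun a => by simp only [φ₁, hf]
  have h2 := hsum φ₂ fun a => by simp only [φ₂, hf]
  refine hχ (∑ j ∈ Mᶜ, φ₁ (x i0 j)) (∑ j ∈ Mᶜ, φ₂ (x i0 j)) M.card hM (by omega) c
    fun a ha => ⟨?_, ?_⟩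
  · have e0 : f ⟨a, by omega⟩ = a := by
      simp only [f, Fin.val_rev]; omega
    have e1 : φ₁ ⟨a, by omega⟩ = a := by simp only [φ₁, e0, if_pos ha]
    have e2 : φ₂ ⟨a, by omega⟩ = 0 := by
      simp only [φ₂, e0]; split_ifs <;> omega
    have := hc ⟨a, by omega⟩
    simp only [h1, h2, e1, e2, zero_mul, add_zero] at this
    exact this
  · have e0 : f ⟨p + a, by omega⟩ = p + a := by
      simp only [f, Fin.val_rev]; omega
    have e1 : φ₁ ⟨p + a, by omega⟩ = 0 := by
      simp only [φ₁, e0]; split_ifs <;> omega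
    have e2 : φ₂ ⟨p + a, by omega⟩ = a := by
      simp only [φ₂, e0]; split_ifs <;> omega
    have := hc ⟨p + a, by omega⟩
    simp only [h1, h2, e1, e2, zero_mul, add_zero] at this
    exact this

end Pool.Agent.MP_c9a892_co.H35
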