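import Mathlib

set_option autoImplicit false

namespace Pool.Agent.MP_c9a892_co.H35

variable {K : Type} [DecidableEq K]

/-- The non-holder tries to take over: state = (holder, lock, colour), type = (key, lock, bit). -/
def att (e : Bool → Option (K × K × Bool)) (σ : Bool × K × Bool) : Bool × K × Bool :=
  match e (!σ.1) with
  | some τ => if τ.1 = σ.2.1 then (!σ.1, τ.2.1, xor σ.2.2 τ.2.2) else σ
  | none => σ

/-- The label of the non-holder is added to the colour. -/
def lab (e : Bool → Option (K × K × Bool)) (x : Bool → Bool) (σ : Bool × K × Bool) :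
    Bool × K × Bool :=
  (σ.1, σ.2.1, xor σ.2.2 ((e (!σ.1)).isSome && x (!σ.1)))

/-- The state after `k` blocks. -/
def run (σ0 : Bool × K × Bool) (E : Bool → ℕ → Option (K × K × Bool)) (X : Bool → ℕ → Bool) :
    ℕ → Bool × K × Bool
  | 0 => σ0
  | k + 1 => lab (fun j => E j k) (fun j => X j k)
      (att (fun j => E j k) (att (fun j => E j k) (run σ0 E X k)))

theorem run_congr (σ0 : Bool × K × Bool) {E E' : Bool → ℕ → Option (K × K × Bool)}
    {X X' : Bool → ℕ → Bool} (i : ℕ) (hE : ∀ j, ∀ k < i, E j k = E' j k)
    (hX : ∀ j, ∀ k < i, X j k = X' j k) : run σ0 E X i = run σ0 E' X' i := by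
  induction i with
  | zero => rfl
  | succ i ih =>
    have h1 : (fun j => E j i) = fun j => E' j i := funext fun j => hE j i (Nat.lt_succ_self i)
    have h2 : (fun j => X j i) = fun j => X' j i := funext fun j => hX j i (Nat.lt_succ_self i)
    simp only [run]
    rw [ih (fun j k hk => hE j k (Nat.lt_succ_of_lt hk))
      (fun j k hk => hX j k (Nat.lt_succ_of_lt hk)), h1, h2]

theorem att_fail {e : Bool → Option (K × K × Bool)} {h : Bool} {v : K} {c : Bool}
    (hf : ∀ τ, e (!h) = some τ → τ.1 ≠ v) : att e (h, v, c) = (h, v, c) := by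
  unfold att
  cases he : e (!h) with
  | none => simp only
  | some τ => simp only [if_neg (hf τ he)]

theorem att_win {e : Bool → Option (K × K × Bool)} {h : Bool} {v v' : K} {c w : Bool}
    (he : e (!h) = some (v, v', w)) : att e (h, v, c) = (!h, v', xor c w) := by
  unfold att
  simp only [he, if_true]

/-- Persistence: a holder whose lock no later key fits keeps it, and only the labels of the
other system enter the colour. -/
theorem run_keep (σ0 : Bool × K × Bool) {E E' : Bool → ℕ → Option (K × K × Bool)}
    {X X' : Bool → ℕ → Bool} {i m : ℕ} (him : i < m) {h : Bool} {v : K} {c c' : Bool}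
    (h1 : run σ0 E X (i + 1) = (h, v, c)) (h2 : run σ0 E' X' (i + 1) = (h, v, c'))
    (hcc : c ≠ c')
    (hE : ∀ k, i < k → k < m → E (!h) k = E' (!h) k)
    (hX : ∀ k, i < k → k < m → E (!h) k = none ∨ X (!h) k = X' (!h) k)
    (hf : ∀ k, i < k → k < m → ∀ τ, E (!h) k = some τ → τ.1 ≠ v) :
    (run σ0 E X m).2.2 ≠ (run σ0 E' X' m).2.2 := by
  have key : ∀ k, i + 1 ≤ k → k ≤ m → ∃ d d', run σ0 E X k = (h, v, d) ∧
      run σ0 E' X' k = (h, v, d') ∧ d ≠ d' := by
    intro k hk
    induction k, hk using Nat.le_induction with
    | base => exact fun _ => ⟨c, c', h1, h2, hcc⟩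
    | succ k hk ih =>
      intro hkm
      obtain ⟨d, d', e1, e2, hd⟩ := ih (by omega)
      have f1 : ∀ τ, (fun j => E j k) (!h) = some τ → τ.1 ≠ v := hf k (by omega) (by omega)
      have f2 : ∀ τ, (fun j => E' j k) (!h) = some τ → τ.1 ≠ v := by
        intro τ hτ
        exact hf k (by omega) (by omega) τ ((hE k (by omega) (by omega)).trans hτ)
      refine ⟨xor d ((E (!h) k).isSome && X (!h) k), xor d' ((E' (!h) k).isSome && X' (!h) k),
        ?_, ?_, ?_⟩
      · have g1 := att_fail (e := fun j => E j k) (h := h) (v := v) (c := d) f1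
        simp only [run]; rw [e1, g1, g1]; rfl
      · have g2 := att_fail (e := fun j => E' j k) (h := h) (v := v) (c := d') f2
        simp only [run]; rw [e2, g2, g2]; rfl
      · rw [← hE k (by omega) (by omega)]
        rcases hX k (by omega) (by omega) with h0 | h0
        · rw [h0]; simpa using hd
        · rw [← h0]
          generalize ((E (!h) k).isSome && X (!h) k) = y
          revert hd; cases d <;> cases d' <;> cases y <;> simp
  obtain ⟨d, d', e1, e2, hd⟩ := key m him le_rfl
  rw [e1, e2]; exact hd

theorem exists_lock [Fintype K] {m : ℕ} (hK : m < Fintype.card K) (e : ℕ → Option (K × K × Bool)) :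
    ∃ v : K, ∀ k < m, ∀ τ, e k = some τ → τ.1 ≠ v := by
  classical
  by_contra hcon
  push Not at hcon
  choose f hf τ hτ hv using hcon
  have hinj : Function.Injective fun v => (⟨f v, hf v⟩ : Fin m) := by
    intro a b hab
    have hab' : f a = f b := congrArg Fin.val hab
    have : τ a = τ b := by
      have h1 := hτ a
      rw [hab', hτ b] at h1
      exact (Option.some.inj h1).symm
    rw [← hv a, ← hv b, this]
  have := Fintype.card_le_of_injective _ hinj
  simp at this
  omega

open Function in
/-- The lock game separates two points of one arm. `P j e x`: the events `e` and labels `x` of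
system `j` occur on arm `j`. -/
theorem game [Fintype K] (σ0 : Bool × K × Bool) {m i : ℕ} (him : i < m) (hK : m < Fintype.card K)
    (E : Bool → ℕ → Option (K × K × Bool)) (X : Bool → ℕ → Bool)
    (P : Bool → (ℕ → Option (K × K × Bool)) → (ℕ → Bool) → Prop)
    (hlow : ∀ j e x, P j e x → ∀ k < i, e k = E j k ∧ x k = X j k)
    (harm : ∀ j, (∀ τ, ∃ e x, P j e x ∧ e i = some τ) ∨ ∃ τ, E j i = some τ ∧
      ∀ b, ∃ e x, P j e x ∧ e i = some τ ∧ x i = b ∧ ∀ k, i < k → k < m → e k = none) :
    ∃ j e x e' x', P j e x ∧ P j e' x' ∧
      (run σ0 (update E j e) (update X j x) m).2.2 ≠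
        (run σ0 (update E j e') (update X j x') m).2.2 := by
  have hpre : ∀ j e x, P j e x → run σ0 (update E j e) (update X j x) i = run σ0 E X i := by
    intro j e x hP
    refine run_congr σ0 i (fun j' k hk => ?_) (fun j' k hk => ?_)
    · by_cases hj : j' = j
      · subst hj; rw [update_self]; exact (hlow _ _ _ hP k hk).1
      · rw [update_of_ne hj]
    · by_cases hj : j' = j
      · subst hj; rw [update_self]; exact (hlow _ _ _ hP k hk).2
      · rw [update_of_ne hj]
  have hne : ∀ j : Bool, (!j) ≠ j := by intro j; cases j <;> simp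
  -- arm `j` ends block `i` as holder with a safe lock
  have win : ∀ (j : Bool) (v : K) (c : Bool), (∀ τ, ∃ e x, P j e x ∧ e i = some τ) →
      (∀ (v' : K) (w : Bool) (e : ℕ → Option (K × K × Bool)), e i = some (v, v', w) →
        (∀ k < m, ∀ τ, E (!j) k = some τ → τ.1 ≠ v') →
        att (fun j' => update E j e j' i) (att (fun j' => update E j e j' i) (run σ0 E X i))
          = (j, v', xor c w)) →
      ∃ j e x e' x', P j e x ∧ P j e' x' ∧
      (run σ0 (update E j e) (update X j x) m).2.2 ≠
        (run σ0 (update E j e') (update X j x') m).2.2 := by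
    intro j v c hall hstep
    obtain ⟨v', hv'⟩ := exists_lock hK (E (!j))
    obtain ⟨e, x, hP, he⟩ := hall (v, v', false)
    obtain ⟨e', x', hP', he'⟩ := hall (v, v', true)
    refine ⟨j, e, x, e', x', hP, hP', ?_⟩
    refine run_keep σ0 him (h := j) (v := v')
      (c := xor (xor c false) ((E (!j) i).isSome && X (!j) i))
      (c' := xor (xor c true) ((E (!j) i).isSome && X (!j) i)) ?_ ?_ ?_ ?_ ?_ ?_
    · simp only [run]
      rw [hpre j e x hP, hstep v' false e he hv']
      simp only [lab, update_of_ne (hne j)]
    · simp only [run]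
      rw [hpre j e' x' hP', hstep v' true e' he' hv']
      simp only [lab, update_of_ne (hne j)]
    · generalize ((E (!j) i).isSome && X (!j) i) = y
      cases c <;> cases y <;> simp
    · intro k _ _; simp only [update_of_ne (hne j)]
    · intro k _ _; right; simp only [update_of_ne (hne j)]
    · intro k _ hk τ hτ
      rw [update_of_ne (hne j)] at hτ
      exact hv' k hk τ hτ
  -- arm `j` ends block `i` as non-holder with a constant type
  have lose : ∀ (j : Bool) (v : K) (c : Bool) (τ : K × K × Bool),
      (∀ b, ∃ e x, P j e x ∧ e i = some τ ∧ x i = b ∧ ∀ k, i < k → k < m → e k = none) →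
      (∀ e : ℕ → Option (K × K × Bool), e i = some τ →
        att (fun j' => update E j e j' i) (att (fun j' => update E j e j' i) (run σ0 E X i))
          = (!j, v, c)) →
      ∃ j e x e' x', P j e x ∧ P j e' x' ∧
      (run σ0 (update E j e) (update X j x) m).2.2 ≠
        (run σ0 (update E j e') (update X j x') m).2.2 := by
    intro j v c τ hcl hstep
    obtain ⟨e, x, hP, he, hx, hc⟩ := hcl false
    obtain ⟨e', x', hP', he', hx', hc'⟩ := hcl true
    refine ⟨j, e, x, e', x', hP, hP', ?_⟩
    refine run_keep σ0 him (h := !j) (v := v) (c := xor c false) (c' := xor c true)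
      ?_ ?_ ?_ ?_ ?_ ?_
    · simp only [run]
      rw [hpre j e x hP, hstep e he]
      simp only [lab, Bool.not_not, update_self, he, hx, Option.isSome_some, Bool.true_and]
    · simp only [run]
      rw [hpre j e' x' hP', hstep e' he']
      simp only [lab, Bool.not_not, update_self, he', hx', Option.isSome_some, Bool.true_and]
    · cases c <;> simp
    · intro k h1 h2; simp only [Bool.not_not, update_self, hc k h1 h2, hc' k h1 h2]
    · intro k h1 h2; left; simp only [Bool.not_not, update_self, hc k h1 h2]
    · intro k h1 h2 τ' hτ'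
      simp only [Bool.not_not, update_self, hc k h1 h2] at hτ'
      cases hτ'
  obtain ⟨h, v, c, hσ⟩ : ∃ h v c, run σ0 E X i = (h, v, c) := ⟨_, _, _, rfl⟩
  rcases harm (!h) with hall | ⟨⟨u, v', w⟩, hEo, hcl⟩
  · refine win (!h) v c hall fun v' w e he hv' => ?_
    have g1 := att_win (e := fun j' => update E (!h) e j' i) (h := h) (v := v) (c := c)
      (v' := v') (w := w) (by simp only [update_self, he])
    have g2 := att_fail (e := fun j' => update E (!h) e j' i) (h := !h) (v := v') (c := xor c w)
      (by
        intro τ hτ
        simp only [update_of_ne (hne (!h))] at hτ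
        exact hv' i him τ hτ)
    rw [hσ, g1, g2]
  · by_cases huv : u = v
    · subst huv
      have first : ∀ e, att (fun j' => update E h e j' i) (run σ0 E X i) = (!h, v', xor c w) := by
        intro e
        rw [hσ]
        exact att_win (by simp only [update_of_ne (hne h), hEo])
      rcases harm h with hall | ⟨⟨u', v'', w'⟩, hEh, hcl'⟩
      · refine win h v' (xor c w) hall fun v'' w' e he _ => ?_
        rw [first e, att_win (v' := v'') (w := w') (by simp only [Bool.not_not, update_self, he]),
          Bool.not_not]
      · by_cases huv' : u' = v'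
        · subst huv'
          refine lose (!h) v'' (xor (xor c w) w') _ hcl fun e he => ?_
          have g1 := att_win (e := fun j' => update E (!h) e j' i) (h := h) (v := u) (c := c)
            (v' := u') (w := w) (by simp only [update_self, he])
          have g2 := att_win (e := fun j' => update E (!h) e j' i) (h := !h) (v := u')
            (c := xor c w) (v' := v'') (w := w') (by
              simp only [update_of_ne (hne (!h))]
              simp only [Bool.not_not, hEh])
          rw [hσ, g1, g2]
        · refine lose h v' (xor c w) _ hcl' fun e he => ?_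
          rw [first e, att_fail]
          intro τ hτ
          simp only [Bool.not_not, update_self, he] at hτ
          rw [← Option.some.inj hτ]; exact huv'
    · refine lose (!h) v c _ hcl fun e he => ?_
      have hf : ∀ τ, (fun j' => update E (!h) e j' i) (!h) = some τ → τ.1 ≠ v := by
        intro τ hτ
        simp only [update_self, he] at hτ
        rw [← Option.some.inj hτ]; exact huv
      have g := att_fail (e := fun j' => update E (!h) e j' i) (h := h) (v := v) (c := c) hf
      rw [hσ, g, g, Bool.not_not]

end Pool.Agent.MP_c9a892_co.H35
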