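import Pool.Agent.MP_c9a892_co.H35.Shape
import Pool.Agent.MP_c9a892_co.H35.Cube

set_option autoImplicit false

namespace Pool.Agent.MP_c9a892_co.H35

open Finset

theorem choose_mul_le (p k : ℕ) (hk : k ≤ p) : p.choose k * 7 ^ k ≤ 8 ^ p := by
  have h := add_pow (7 : ℕ) 1 p
  have h2 := single_le_sum (f := fun i => (7 : ℕ) ^ i * 1 ^ (p - i) * (p.choose i : ℕ))
    (s := range (p + 1)) (fun i _ => Nat.zero_le _) (mem_range.2 (Nat.lt_succ_of_le hk))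
  simp only [one_pow, mul_one, Nat.cast_id] at h h2
  rw [← h] at h2
  rw [mul_comm]
  exact h2

theorem base_lt (p : ℕ) (hp : 13 ≤ p) : 256 * (4 * 8 ^ 8) ^ p < (14 ^ 7) ^ p := by
  induction p, hp using Nat.le_induction with
  | base => norm_num
  | succ p _ ih =>
    rw [pow_succ (4 * 8 ^ 8), pow_succ (14 ^ 7), ← mul_assoc]
    exact Nat.mul_lt_mul_of_lt_of_le ih (by norm_num) (by norm_num)

theorem label_num {p Q : ℕ} (hp : 13 ≤ p) (hQ : Q ^ 8 ≤ 2 ^ p) :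
    Q * (Q * (2 * p.choose (p - p / 8))) < 2 ^ (p - p / 8) := by
  set k := p - p / 8 with hk
  have h1 := choose_mul_le p k (by omega)
  have h2 : (Q * (Q * (2 * 8 ^ p))) ^ 8 < (14 ^ k) ^ 8 := by
    calc (Q * (Q * (2 * 8 ^ p))) ^ 8 = 256 * (Q ^ 8 * Q ^ 8 * (8 ^ 8) ^ p) := by
          rw [← pow_mul, mul_comm 8 p, pow_mul]; ring
      _ ≤ 256 * (2 ^ p * 2 ^ p * (8 ^ 8) ^ p) := by gcongr
      _ = 256 * (4 * 8 ^ 8) ^ p := by rw [← mul_pow, ← mul_pow, show 2 * 2 = 4 from rfl]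
      _ < (14 ^ 7) ^ p := base_lt p hp
      _ ≤ (14 ^ k) ^ 8 := by
          rw [← pow_mul, ← pow_mul]
          exact Nat.pow_le_pow_right (by norm_num) (by omega)
  have h3 : Q * (Q * (2 * 8 ^ p)) < 14 ^ k := lt_of_pow_lt_pow_left₀ 8 (Nat.zero_le _) h2
  have h4 : Q * (Q * (2 * p.choose k)) * 7 ^ k < 2 ^ k * 7 ^ k := by
    calc Q * (Q * (2 * p.choose k)) * 7 ^ k = Q * (Q * (2 * (p.choose k * 7 ^ k))) := by ring
      _ ≤ Q * (Q * (2 * 8 ^ p)) := by gcongr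
      _ < 14 ^ k := h3
      _ = 2 ^ k * 7 ^ k := by rw [← mul_pow, show 2 * 7 = 14 from rfl]
  exact Nat.lt_of_mul_lt_mul_right h4

theorem choose_le_num {M s y : ℕ} (h : M ≤ y * s) : M.choose s ≤ (3 * y) ^ s := by
  have h1 : (M.choose s : ℝ) ≤ (M : ℝ) ^ s / s.factorial := by
    exact_mod_cast Nat.choose_le_pow_div (α := ℝ) s M
  have h2 : (s : ℝ) ^ s / s.factorial ≤ Real.exp s :=
    Real.pow_div_factorial_le_exp _ (Nat.cast_nonneg s) s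
  have h3 : Real.exp s ≤ 3 ^ s := by
    rw [← Real.exp_one_pow]
    exact pow_le_pow_left₀ (Real.exp_pos 1).le
      (Real.exp_one_lt_d9.le.trans (by norm_num)) s
  have h4 : (M : ℝ) ≤ y * s := by exact_mod_cast h
  have h5 : (M.choose s : ℝ) ≤ (3 * y) ^ s := by
    calc (M.choose s : ℝ) ≤ (M : ℝ) ^ s / s.factorial := h1
      _ ≤ ((y : ℝ) * s) ^ s / s.factorial := by gcongr
      _ = (y : ℝ) ^ s * ((s : ℝ) ^ s / s.factorial) := by rw [mul_pow]; ring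
      _ ≤ (y : ℝ) ^ s * 3 ^ s := by gcongr; exact h2.trans h3
      _ = (3 * y) ^ s := by rw [mul_pow]; ring
  exact_mod_cast h5

theorem shift_num {p G m q s : ℕ} (hp : 0 < p) (hG : 0 < G) (hm : 0 < m) (hq : 0 < q)
    (hs : p < 8 * s) (hQ : (p ^ G) ^ 8 ≤ 2 ^ p) (h : 4 ^ m * (24 * m) * (G * q) ≤ p) :
    (p ^ G) ^ m * ((p ^ G) ^ m * (p * m).choose s) * (G * (q * p ^ (G - 1))) ^ s
      < (p ^ G) ^ s := by
  have h1 : p ^ G < 2 ^ s := by
    refine lt_of_pow_lt_pow_left₀ 8 (Nat.zero_le _) (hQ.trans_lt ?_)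
    rw [← pow_mul]
    exact Nat.pow_lt_pow_right (by norm_num) (by omega)
  have h2 : (p ^ G) ^ m < (2 ^ s) ^ m := Nat.pow_lt_pow_left h1 hm.ne'
  have h3 : (p * m).choose s ≤ (3 * (8 * m)) ^ s :=
    choose_le_num (by nlinarith)
  have h4 : 0 < (G * (q * p ^ (G - 1))) ^ s := by positivity
  have h5 : 0 < (3 * (8 * m)) ^ s := by positivity
  calc (p ^ G) ^ m * ((p ^ G) ^ m * (p * m).choose s) * (G * (q * p ^ (G - 1))) ^ s
      ≤ (p ^ G) ^ m * ((2 ^ s) ^ m * (3 * (8 * m)) ^ s) * (G * (q * p ^ (G - 1))) ^ s := by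
        gcongr
    _ < (2 ^ s) ^ m * ((2 ^ s) ^ m * (3 * (8 * m)) ^ s) * (G * (q * p ^ (G - 1))) ^ s := by
        gcongr
    _ = (4 ^ m * (24 * m) * (G * q) * p ^ (G - 1)) ^ s := by
        have e : (2 ^ s) ^ m * (2 ^ s) ^ m = (4 ^ m) ^ s := by
          rw [← mul_pow, ← mul_pow, ← pow_mul, ← pow_mul, mul_comm s m,
            show 2 * 2 = 4 from rfl]
        rw [← mul_assoc, e, ← mul_pow, ← mul_pow]
        congr 1
        ring
    _ ≤ (p * p ^ (G - 1)) ^ s := by gcongr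
    _ = (p ^ G) ^ s := by rw [← pow_succ', Nat.sub_add_cancel hG]

theorem cube_le (m : ℕ) (hm : 15 ≤ m) : 6 * m * (m + 1) ^ 2 ≤ 2 ^ m := by
  induction m, hm using Nat.le_induction with
  | base => norm_num
  | succ m hm ih =>
    rw [pow_succ 2]
    have : 6 * (m + 1) * (m + 1 + 1) ^ 2 ≤ 6 * m * (m + 1) ^ 2 * 2 := by
      obtain ⟨k, rfl⟩ := Nat.exists_eq_add_of_le hm
      ring_nf
      nlinarith [Nat.zero_le k, Nat.zero_le (k ^ 2), Nat.zero_le (k ^ 3)]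
    omega

theorem lin_le (L : ℕ) (hL : 10 ≤ L) : 72 * (L + 1) ≤ 2 ^ L := by
  induction L, hL using Nat.le_induction with
  | base => norm_num
  | succ L _ ih => rw [pow_succ]; omega

/-- The bound for a prime `p` with `2 ^ L ≤ p < 2 ^ (L + 1)` and `8 ^ m ≤ L`. -/
theorem forces_ge {n p L m d : ℕ} (hp : p.Prime) (hn : 4 * p ≤ n) (hL : 2 ^ L ≤ p)
    (hL' : p < 2 ^ (L + 1)) (hm : 15 ≤ m) (hmL : 8 ^ m ≤ L) (h : Forces n d) :
    2 ^ (p * m) ≤ d ^ 9 := by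
  have hm8 : m < 2 ^ m := Nat.lt_two_pow_self
  have h28 : 2 ^ m ≤ 8 ^ m := Nat.pow_le_pow_left (by norm_num) m
  have hL10 : 10 ≤ L := by omega
  have hlin := lin_le L hL10
  have h72 : p ^ 72 ≤ 2 ^ p := by
    calc p ^ 72 ≤ (2 ^ (L + 1)) ^ 72 := Nat.pow_le_pow_left hL'.le _
      _ ≤ 2 ^ p := by
        rw [← pow_mul]
        exact Nat.pow_le_pow_right (by norm_num) (by omega)
  have hp8 : 1 < p ^ 8 := Nat.one_lt_pow (by norm_num) hp.one_lt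
  have h8 : p ^ 8 ≤ 2 ^ p := (Nat.pow_le_pow_right hp.pos (by norm_num)).trans h72
  obtain ⟨G, hG, hQ, hQ'⟩ : ∃ G, 0 < G ∧ (p ^ 8) ^ G ≤ 2 ^ p ∧ 2 ^ p < (p ^ 8) ^ (G + 1) :=
    ⟨Nat.log (p ^ 8) (2 ^ p), Nat.log_pos hp8 h8, Nat.pow_log_le_self _ (by positivity),
      Nat.lt_pow_succ_log_self hp8 _⟩
  have hQ8 : (p ^ G) ^ 8 ≤ 2 ^ p := by rwa [← pow_mul, mul_comm, pow_mul]
  have hGL : L * 8 * G ≤ p := by
    have : 2 ^ (L * 8 * G) ≤ 2 ^ p := by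
      rw [pow_mul, pow_mul]
      exact (Nat.pow_le_pow_left (Nat.pow_le_pow_left hL 8) G).trans hQ
    exact (Nat.pow_le_pow_iff_right (by norm_num)).1 this
  have hc := cube_le m hm
  have hmain : 4 ^ m * (24 * m) * (G * ((m + 1) * ((m + 1) * 2))) ≤ p := by
    calc 4 ^ m * (24 * m) * (G * ((m + 1) * ((m + 1) * 2)))
        = 4 ^ m * (6 * m * (m + 1) ^ 2) * 8 * G := by ring
      _ ≤ 4 ^ m * 2 ^ m * 8 * G := by gcongr
      _ = 8 ^ m * 8 * G := by rw [← mul_pow, show 4 * 2 = 8 from rfl]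
      _ ≤ L * 8 * G := by gcongr
      _ ≤ p := hGL
  have hq : (m + 1) * ((m + 1) * 2) ≤ p := by
    refine le_trans ?_ hmain
    refine (Nat.le_mul_of_pos_left _ hG).trans (Nat.le_mul_of_pos_left _ ?_)
    have : 0 < m := by omega
    positivity
  obtain ⟨χ, hχ⟩ := exists_shape G m (p / 8 + 1) (p - p / 8) hp hG (by omega) hq (by omega)
    (label_num (by omega) hQ8)
    (shift_num hp.pos hG (by omega) (by positivity) (by omega) hQ8 hmain)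
  have hN := le_of_forces hp.pos hn χ hχ h
  have h9 : 2 ^ p ≤ (p ^ G) ^ 9 := by
    have e1 : (2 ^ p) ^ 8 * 2 ^ p < ((p ^ G) ^ 9) ^ 8 * p ^ 72 := by
      calc (2 ^ p) ^ 8 * 2 ^ p = (2 ^ p) ^ 9 := by ring
        _ < ((p ^ 8) ^ (G + 1)) ^ 9 := Nat.pow_lt_pow_left hQ' (by norm_num)
        _ = ((p ^ G) ^ 9) ^ 8 * p ^ 72 := by ring
    have e2 : (2 ^ p) ^ 8 * 2 ^ p < ((p ^ G) ^ 9) ^ 8 * 2 ^ p :=
      e1.trans_le (Nat.mul_le_mul_left _ h72)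
    exact (lt_of_pow_lt_pow_left₀ 8 (Nat.zero_le _) (Nat.lt_of_mul_lt_mul_right e2)).le
  calc 2 ^ (p * m) = (2 ^ p) ^ m := pow_mul _ _ _
    _ ≤ ((p ^ G) ^ 9) ^ m := Nat.pow_le_pow_left h9 m
    _ = ((p ^ G) ^ m) ^ 9 := by ring
    _ ≤ d ^ 9 := Nat.pow_le_pow_left hN 9

theorem log_pow_le : ∃ n₀ : ℕ, ∀ n ≥ n₀, ∀ d, Forces n d →
    Real.log n ^ ((n : ℝ) / 240) ≤ d := by
  obtain ⟨L₀, hL₀⟩ : ∃ L₀ : ℕ, 8 ^ 15 ≤ L₀ := ⟨_, le_rfl⟩
  refine ⟨8 * 2 ^ L₀, fun n hn d h => ?_⟩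
  have hpos : 0 < 2 ^ L₀ := by positivity
  obtain ⟨p, hp, hp1, hp2⟩ := Nat.exists_prime_lt_and_le_two_mul (n / 8) (by omega)
  have hL : 2 ^ Nat.log 2 p ≤ p := Nat.pow_log_le_self 2 hp.ne_zero
  have hL' : p < 2 ^ (Nat.log 2 p + 1) := Nat.lt_pow_succ_log_self (by norm_num) p
  have hLL : L₀ ≤ Nat.log 2 p := Nat.le_log_of_pow_le (by norm_num) (by omega)
  generalize Nat.log 2 p = L at hL hL' hLL
  have hL0 : L ≠ 0 := by
    have : 0 < 8 ^ 15 := by positivity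
    omega
  have hm : 8 ^ Nat.log 8 L ≤ L := Nat.pow_log_le_self 8 hL0
  have hm' : L < 8 ^ (Nat.log 8 L + 1) := Nat.lt_pow_succ_log_self (by norm_num) L
  have hmm : 15 ≤ Nat.log 8 L := Nat.le_log_of_pow_le (by norm_num) (hL₀.trans hLL)
  generalize Nat.log 8 L = m at hm hm' hmm
  have hd := forces_ge hp (by omega) hL hL' hmm hm h
  have hn8 : n ≤ 8 * p := by omega
  have hn2 : n ≤ 2 ^ (L + 4) := by
    rw [pow_add]
    rw [pow_succ] at hL'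
    omega
  have hL4 : L + 4 ≤ 2 ^ (3 * m + 4) := by
    have e : 2 ^ (3 * m + 4) = 2 * 8 ^ (m + 1) := by
      rw [pow_add, pow_mul]; ring
    have : 4 ≤ 8 ^ (m + 1) := by
      rw [pow_succ]
      have : 0 < 8 ^ m := by positivity
      omega
    omega
  have hn1 : (1 : ℝ) ≤ n := by exact_mod_cast (show 1 ≤ n by omega)
  have hlog : Real.log n ≤ (2 : ℝ) ^ ((3 * m + 4 : ℕ) : ℝ) := by
    rw [Real.rpow_natCast]
    calc Real.log n ≤ Real.log ((2 : ℝ) ^ (L + 4)) :=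
          Real.log_le_log (by linarith) (by exact_mod_cast hn2)
      _ = (L + 4 : ℕ) * Real.log 2 := Real.log_pow _ _
      _ ≤ (L + 4 : ℕ) * 1 := by
          gcongr
          exact Real.log_two_lt_d9.le.trans (by norm_num)
      _ ≤ (2 : ℝ) ^ (3 * m + 4) := by rw [mul_one]; exact_mod_cast hL4
  have h1 : Real.log n ^ ((n : ℝ) / 240) ≤ (2 : ℝ) ^ (((p * m : ℕ) : ℝ) / 9) := by
    calc Real.log n ^ ((n : ℝ) / 240)
        ≤ ((2 : ℝ) ^ ((3 * m + 4 : ℕ) : ℝ)) ^ ((n : ℝ) / 240) :=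
          Real.rpow_le_rpow (Real.log_nonneg hn1) hlog (by positivity)
      _ = (2 : ℝ) ^ (((3 * m + 4 : ℕ) : ℝ) * ((n : ℝ) / 240)) :=
          (Real.rpow_mul (by norm_num) _ _).symm
      _ ≤ _ := by
          refine Real.rpow_le_rpow_of_exponent_le (by norm_num) ?_
          have a1 : (n : ℝ) ≤ 8 * p := by exact_mod_cast hn8
          have a2 : (15 : ℝ) ≤ m := by exact_mod_cast hmm
          have a3 : (0 : ℝ) ≤ p := Nat.cast_nonneg p
          push_cast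
          nlinarith [mul_nonneg a3 (sub_nonneg.2 a2), mul_le_mul_of_nonneg_left a1
            (show (0 : ℝ) ≤ 3 * m + 4 by linarith)]
  refine h1.trans (le_of_pow_le_pow_left₀ (n := 9) (by norm_num) (Nat.cast_nonneg d) ?_)
  rw [← Real.rpow_natCast, ← Real.rpow_mul (by norm_num)]
  have e : ((p * m : ℕ) : ℝ) / 9 * ((9 : ℕ) : ℝ) = ((p * m : ℕ) : ℝ) := by
    push_cast; ring
  rw [e, Real.rpow_natCast]
  exact_mod_cast hd

end Pool.Agent.MP_c9a892_co.H35
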