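import Pool.Agent.MP_c9a892_co.H35.Union
import Pool.Agent.MP_c9a892_co.H35.Block

set_option autoImplicit false

namespace Pool.Agent.MP_c9a892_co.H35

open Finset

theorem eq_of_modEq {p e t b a a' : ℕ} (hp : p.Prime) (ht : ¬ p ^ e ∣ t) (ha : a < p)
    (ha' : a' < p) (h : b + a * t ≡ b + a' * t [MOD p ^ e]) : a = a' := by
  have key : ∀ {a a' : ℕ}, a ≤ a' → a' < p → b + a * t ≡ b + a' * t [MOD p ^ e] → a = a' := by
    intro a a' hle ha' h
    have h1 : a * t ≡ a' * t [MOD p ^ e] := Nat.ModEq.add_left_cancel' b h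
    have h2 : p ^ e ∣ (a' - a) * t := by
      rw [Nat.sub_mul]
      exact (Nat.modEq_iff_dvd' (Nat.mul_le_mul_right t hle)).1 h1
    by_contra hne
    have h3 : ¬ p ∣ a' - a := Nat.not_dvd_of_pos_of_lt (by omega) (by omega)
    have h4 : Nat.Coprime (p ^ e) (a' - a) :=
      Nat.Coprime.pow_left e ((Nat.Prime.coprime_iff_not_dvd hp).2 h3)
    exact ht (h4.dvd_of_dvd_mul_left h2)
  rcases le_total a a' with hle | hle
  · exact key hle ha' h
  · exact (key hle ha h.symm).symm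

/-- A labelling of a block that is balanced along every progression. -/
theorem exists_label {p : ℕ} (G s' : ℕ) (hp : p.Prime)
    (hnum : p ^ G * (p ^ G * (2 * p.choose s')) < 2 ^ s') : ∃ ξ : ℕ → Bool,
    ∀ z u : ℕ, ¬ p ^ G ∣ u → ∀ v : Bool,
      ((range p).filter fun a => ξ ((z + a * u) % p ^ G) ≠ v).card < s' := by
  classical
  have hQ : 0 < p ^ G := pow_pos hp.pos G
  obtain ⟨r, hr⟩ := exists_avoid (I := Fin (p ^ G)) (V := Bool) (J := ℕ)
    (P := ℕ × ℕ × Bool × Finset ℕ)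
    (range (p ^ G) ×ˢ ((range (p ^ G)).filter fun u => ¬ p ^ G ∣ u) ×ˢ univ ×ˢ
      powersetCard s' (range p)) s' 1 (fun π => π.2.2.2)
    (fun π a => ⟨(π.1 + a * π.2.1) % p ^ G, Nat.mod_lt _ hQ⟩) (fun π _ => {!π.2.2.1})
    (by
      intro π hπ
      simp only [mem_product, mem_powersetCard] at hπ
      exact hπ.2.2.2.2)
    (by
      intro π hπ a ha a' ha' h
      simp only [mem_product, mem_powersetCard, mem_filter] at hπ
      exact eq_of_modEq hp hπ.2.1.2 (mem_range.1 (hπ.2.2.2.1 ha)) (mem_range.1 (hπ.2.2.2.1 ha'))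
        (congrArg Fin.val h))
    (by intro π _ a _; simp)
    (by
      rw [one_pow, mul_one, Fintype.card_bool]
      refine lt_of_le_of_lt ?_ hnum
      rw [card_product, card_product, card_product, card_range, card_univ, Fintype.card_bool,
        card_powersetCard, card_range]
      refine Nat.mul_le_mul_left _ (Nat.mul_le_mul_right _ ?_)
      exact (card_filter_le _ _).trans (card_range _).le)
  refine ⟨fun w => r ⟨w % p ^ G, Nat.mod_lt _ hQ⟩, fun z u hu v => ?_⟩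
  by_contra hcon
  obtain ⟨S, hS, hc⟩ := exists_subset_card_eq (not_lt.1 hcon)
  obtain ⟨a, ha, hra⟩ := hr (z % p ^ G, u % p ^ G, v, S) (by
    simp only [mem_product, mem_powersetCard, mem_filter, mem_range, mem_univ, true_and]
    exact ⟨Nat.mod_lt _ hQ, ⟨Nat.mod_lt _ hQ, fun h => hu ((Nat.dvd_mod_iff dvd_rfl).1 h)⟩,
      hS.trans (filter_subset _ _), hc⟩)
  have h1 := (mem_filter.1 (hS ha)).2
  have e : (z % p ^ G + a * (u % p ^ G)) % p ^ G = (z + a * u) % p ^ G % p ^ G := by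
    rw [Nat.mod_mod]
    exact (Nat.mod_modEq z _).add ((Nat.mod_modEq u _).mul_left a)
  simp only [e, mem_singleton] at hra
  simp only at h1
  revert h1 hra
  generalize r ⟨(z + a * u) % p ^ G % p ^ G, _⟩ = y
  cases y <;> cases v <;> simp

/-- Block number `k` of `l`, shifted by an amount that depends on the lower blocks. -/
def zz (Q : ℕ) (r : ℕ → ℕ → ℕ) (k l : ℕ) : ℕ := (l / Q ^ k + r k (l % Q ^ k)) % Q

theorem zz_congr {Q k l l' : ℕ} (r : ℕ → ℕ → ℕ) (h : l ≡ l' [MOD Q ^ (k + 1)]) :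
    zz Q r k l = zz Q r k l' := by
  have h1 : l % Q ^ k = l' % Q ^ k := h.of_dvd (pow_dvd_pow Q (Nat.le_succ k))
  have h2 : l / Q ^ k ≡ l' / Q ^ k [MOD Q] := dig_congr h
  unfold zz
  rw [h1]
  exact h2.add_right _

theorem zz_arm {Q : ℕ} (hQ : 0 < Q) (r : ℕ → ℕ → ℕ) (i b a u : ℕ) :
    zz Q r i (b + a * (Q ^ i * u)) = (b / Q ^ i + r i (b % Q ^ i) + a * u) % Q := by
  unfold zz
  have : b + a * (Q ^ i * u) = b + Q ^ i * (a * u) := by ring
  rw [this, Nat.add_mul_div_left _ _ (pow_pos hQ i), Nat.add_mul_mod_self_left]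
  congr 1
  ring

/-- Shifts for which few points of any progression meet a sparse set in a higher block. -/
theorem exists_shift {p : ℕ} (G m s h : ℕ) (hp : p.Prime) (hm : 0 < m) (bad : ℕ → Prop)
    [DecidablePred bad]
    (hcnt : ∀ x : ℕ, (univ.filter fun ρ : Fin (p ^ G) => bad ((x + ρ) % p ^ G)).card ≤ h)
    (hnum : (p ^ G) ^ m * ((p ^ G) ^ m * (p * m).choose s) * h ^ s < (p ^ G) ^ s) :
    ∃ r : ℕ → ℕ → ℕ, ∀ b t : ℕ, t < (p ^ G) ^ m →
      ((range p).filter fun a => ∃ k : Fin m, ¬ (p ^ G) ^ (k : ℕ) ∣ t ∧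
        bad (zz (p ^ G) r k (b + a * t))).card < s := by
  classical
  have hQ : 0 < p ^ G := pow_pos hp.pos G
  have hN : 0 < (p ^ G) ^ m := pow_pos hQ m
  have : Nonempty (Fin (p ^ G)) := ⟨⟨0, hQ⟩⟩
  have : Nonempty (Fin m) := ⟨⟨0, hm⟩⟩
  have hlt : ∀ (k : Fin m) (l : ℕ), l % (p ^ G) ^ (k : ℕ) < (p ^ G) ^ m := fun k l =>
    (Nat.mod_lt _ (pow_pos hQ _)).trans_le (Nat.pow_le_pow_right hQ k.2.le)
  obtain ⟨r, hr⟩ := exists_avoid (I := Fin m × Fin ((p ^ G) ^ m)) (V := Fin (p ^ G))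
    (J := ℕ × Fin m) (P := ℕ × ℕ × Finset (ℕ × Fin m))
    ((range ((p ^ G) ^ m) ×ˢ range ((p ^ G) ^ m) ×ˢ powersetCard s (range p ×ˢ univ)).filter
      fun π => ∀ j ∈ π.2.2, ¬ (p ^ G) ^ (j.2 : ℕ) ∣ π.2.1) s h (fun π => π.2.2)
    (fun π j => (j.2, ⟨(π.1 + j.1 * π.2.1) % (p ^ G) ^ (j.2 : ℕ), hlt _ _⟩))
    (fun π j => univ.filter fun ρ : Fin (p ^ G) =>
      bad (((π.1 + j.1 * π.2.1) / (p ^ G) ^ (j.2 : ℕ) + ρ) % p ^ G))
    (by
      intro π hπ
      simp only [mem_filter, mem_product, mem_powersetCard] at hπ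
      exact hπ.1.2.2.2)
    (by
      rintro π hπ ⟨a, k⟩ ha ⟨a', k'⟩ ha' h
      simp only [mem_filter, mem_product, mem_powersetCard] at hπ
      simp only [Prod.mk.injEq] at h
      obtain ⟨rfl, h⟩ := h
      have h1 := hπ.2 _ ha
      have h2 := congrArg Fin.val h
      simp only at h1 h2
      rw [← pow_mul] at h1 h2
      have := eq_of_modEq hp h1 (mem_range.1 (mem_product.1 (hπ.1.2.2.1 ha)).1)
        (mem_range.1 (mem_product.1 (hπ.1.2.2.1 ha')).1) h2
      simp only at this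
      rw [this])
    (by intro π _ j _; exact hcnt _)
    (by
      rw [Fintype.card_fin]
      refine lt_of_le_of_lt (Nat.mul_le_mul_right _ ((card_filter_le _ _).trans (le_of_eq ?_))) hnum
      rw [card_product, card_product, card_range, card_powersetCard, card_product, card_range,
        card_univ, Fintype.card_fin])
  refine ⟨fun k y => if hk : k < m then (r (⟨k, hk⟩, ⟨y % (p ^ G) ^ m, Nat.mod_lt _ hN⟩) : ℕ)
    else 0, fun b t ht => ?_⟩
  by_contra hcon
  obtain ⟨S, hS, hc⟩ := exists_subset_card_eq (not_lt.1 hcon)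
  have hch : ∀ a ∈ S, ∃ k : Fin m, ¬ (p ^ G) ^ (k : ℕ) ∣ t ∧ bad (zz (p ^ G)
      (fun k y => if hk : k < m then (r (⟨k, hk⟩, ⟨y % (p ^ G) ^ m, Nat.mod_lt _ hN⟩) : ℕ)
        else 0) k (b + a * t)) := fun a ha => (mem_filter.1 (hS ha)).2
  choose! κ hκ using hch
  obtain ⟨j, hj, hrj⟩ := hr (b % (p ^ G) ^ m, t, S.image fun a => (a, κ a)) (by
    simp only [mem_filter, mem_product, mem_powersetCard, mem_range]
    refine ⟨⟨Nat.mod_lt _ hN, ht, ?_, ?_⟩, ?_⟩
    · intro j hj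
      obtain ⟨a, ha, rfl⟩ := mem_image.1 hj
      exact mem_product.2 ⟨(mem_filter.1 (hS ha)).1, mem_univ _⟩
    · rw [card_image_of_injective _ fun a a' h => congrArg Prod.fst h, hc]
    · intro j hj
      obtain ⟨a, ha, rfl⟩ := mem_image.1 hj
      exact (hκ a ha).1)
  obtain ⟨a, ha, rfl⟩ := mem_image.1 hj
  apply hrj
  have h1 := (hκ a ha).2
  have e : b + a * t ≡ b % (p ^ G) ^ m + a * t [MOD (p ^ G) ^ ((κ a : ℕ) + 1)] :=
    (((Nat.mod_modEq b _).symm).of_dvd (pow_dvd_pow _ (κ a).2)).add_right _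
  rw [zz_congr _ e] at h1
  simp only [zz, dif_pos (κ a).2, Nat.mod_eq_of_lt (hlt _ _)] at h1
  exact mem_filter.2 ⟨mem_univ _, h1⟩

end Pool.Agent.MP_c9a892_co.H35
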