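import Pool.Agent.MP_c9a892_co.H35.Rand
import Pool.Agent.MP_c9a892_co.H35.Game

set_option autoImplicit false

namespace Pool.Agent.MP_c9a892_co.H35

open Finset

/-- A two-colouring of the quadrant without monochromatic L-shape with arms of `p` points. -/
theorem exists_shape {p : ℕ} (G m s s' : ℕ) (hp : p.Prime) (hG : 0 < G) (hm : 0 < m)
    (hq : (m + 1) * ((m + 1) * 2) ≤ p) (hss : s' + s ≤ p + 1)
    (hX : p ^ G * (p ^ G * (2 * p.choose s')) < 2 ^ s')
    (hC : (p ^ G) ^ m * ((p ^ G) ^ m * (p * m).choose s) *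
      (G * ((m + 1) * ((m + 1) * 2) * p ^ (G - 1))) ^ s < (p ^ G) ^ s) :
    ∃ χ : ℕ → ℕ → Bool, ∀ b₁ b₂ t : ℕ, 0 < t → t < (p ^ G) ^ m → ∀ c : Bool,
      ¬ ∀ a < p, χ (b₁ + a * t) b₂ = c ∧ χ b₁ (b₂ + a * t) = c := by
  classical
  have hQ : 0 < p ^ G := pow_pos hp.pos G
  have hQ1 : p ^ G ≠ 1 := (Nat.one_lt_pow hG.ne' hp.one_lt).ne'
  have hcard : Fintype.card (Fin (m + 1) × Fin (m + 1) × Bool) = (m + 1) * ((m + 1) * 2) := by
    simp only [Fintype.card_prod, Fintype.card_fin, Fintype.card_bool]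
  obtain ⟨ty, hcnt, hdich⟩ := exists_block (Fin (m + 1) × Fin (m + 1) × Bool) G hp (hcard ▸ hq)
  rw [hcard] at hcnt
  obtain ⟨ξ, hξ⟩ := exists_label G s' hp hX
  obtain ⟨r, hr⟩ := exists_shift G m s _ hp hm (fun w => ty w ≠ none) hcnt hC
  let E : ℕ → ℕ → Option (Fin (m + 1) × Fin (m + 1) × Bool) := fun l k => ty (zz (p ^ G) r k l)
  let X : ℕ → ℕ → Bool := fun l k => ξ (zz (p ^ G) r k l)
  refine ⟨fun l₁ l₂ => (run (true, 0, false) (fun j => E (cond j l₁ l₂))
    (fun j => X (cond j l₁ l₂)) m).2.2, fun b₁ b₂ t ht0 ht c hmono => ?_⟩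
  obtain ⟨i, u, hu, rfl⟩ := Nat.exists_eq_pow_mul_and_not_dvd ht0.ne' (p ^ G) hQ1
  have him : i < m := by
    by_contra h
    exact absurd (Nat.le_of_dvd ht0 ((pow_dvd_pow _ (not_lt.1 h)).mul_right _)) (not_le.2 ht)
  obtain ⟨j, e, x, e', x', hP, hP', hne⟩ := game (K := Fin (m + 1)) (true, 0, false) him
    (by simp) (fun j => E (cond j b₁ b₂)) (fun j => X (cond j b₁ b₂))
    (fun j e x => ∃ a < p, e = E (cond j b₁ b₂ + a * ((p ^ G) ^ i * u)) ∧
      x = X (cond j b₁ b₂ + a * ((p ^ G) ^ i * u)))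
    (by
      rintro j e x ⟨a, -, rfl, rfl⟩ k hk
      have h1 : (p ^ G) ^ (k + 1) ∣ a * ((p ^ G) ^ i * u) :=
        ((pow_dvd_pow _ hk).mul_right _).mul_left _
      have h2 : cond j b₁ b₂ + a * ((p ^ G) ^ i * u) ≡ cond j b₁ b₂ [MOD (p ^ G) ^ (k + 1)] :=
        ((Nat.modEq_iff_dvd' (Nat.le_add_right _ _)).2 (by simpa using h1)).symm
      simp only [E, X, zz_congr r h2, and_self])
    (by
      intro j
      generalize cond j b₁ b₂ = b
      rcases hdich (b / (p ^ G) ^ i + r i (b % (p ^ G) ^ i)) u hu with ⟨τ, hτ⟩ | hall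
      · right
        refine ⟨τ, ?_, fun v => ?_⟩
        · have := hτ 0 hp.pos
          simp only [zero_mul, add_zero] at this
          exact this
        · have h1 := hξ (b / (p ^ G) ^ i + r i (b % (p ^ G) ^ i)) u hu v
          have h2 := hr b _ ht
          obtain ⟨a, ha, hna⟩ := exists_mem_notMem_of_card_lt_card
            (s := ((range p).filter fun a =>
              ξ ((b / (p ^ G) ^ i + r i (b % (p ^ G) ^ i) + a * u) % p ^ G) ≠ v) ∪
              (range p).filter fun a => ∃ k : Fin m, ¬ (p ^ G) ^ (k : ℕ) ∣ (p ^ G) ^ i * u ∧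
                ty (zz (p ^ G) r k (b + a * ((p ^ G) ^ i * u))) ≠ none) (t := range p)
            (by
              refine (card_union_le _ _).trans_lt ?_
              rw [card_range]
              omega)
          simp only [mem_union, mem_filter, ha, true_and, not_or, not_exists, not_and,
            not_not] at hna
          refine ⟨_, _, ⟨a, mem_range.1 ha, rfl, rfl⟩, ?_, ?_, fun k hik hkm => ?_⟩
          · simp only [E, zz_arm hQ]
            exact hτ a (mem_range.1 ha)
          · simp only [X, zz_arm hQ]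
            exact hna.1
          · refine hna.2 ⟨k, hkm⟩ fun hd => hu ?_
            have h3 : (p ^ G) ^ i * p ^ G ∣ (p ^ G) ^ i * u := by
              rw [← pow_succ]
              exact (pow_dvd_pow _ hik).trans hd
            exact Nat.dvd_of_mul_dvd_mul_left (pow_pos hQ i) h3
      · left
        intro τ
        obtain ⟨a, ha, hτ⟩ := hall τ
        refine ⟨_, _, ⟨a, ha, rfl, rfl⟩, ?_⟩
        simp only [E, zz_arm hQ]
        exact hτ)
  have key : ∀ a < p, (run (true, 0, false)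
      (Function.update (fun j => E (cond j b₁ b₂)) j (E (cond j b₁ b₂ + a * ((p ^ G) ^ i * u))))
      (Function.update (fun j => X (cond j b₁ b₂)) j (X (cond j b₁ b₂ + a * ((p ^ G) ^ i * u))))
      m).2.2 = c := by
    intro a ha
    cases j
    · rw [← (hmono a ha).2]
      congr 3 <;> funext j' <;> cases j' <;> simp
    · rw [← (hmono a ha).1]
      congr 3 <;> funext j' <;> cases j' <;> simp
  obtain ⟨a, ha, rfl, rfl⟩ := hP
  obtain ⟨a', ha', rfl, rfl⟩ := hP'
  exact hne ((key a ha).trans (key a' ha').symm)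

end Pool.Agent.MP_c9a892_co.H35
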