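import Mathlib

set_option autoImplicit false

namespace Pool.Agent.MP_c9a892_co.H35

open Finset

/-- The number of functions with prescribed sets of values at distinct indices. -/
theorem card_pattern_le {I V J : Type*} [Fintype I] [DecidableEq I] [Fintype V] [DecidableEq V]
    (A : Finset J) (ι : J → I) (H : J → Finset V) (h : ℕ) (hι : Set.InjOn ι A)
    (hH : ∀ j ∈ A, (H j).card ≤ h) :
    (univ.filter fun r : I → V => ∀ j ∈ A, r (ι j) ∈ H j).card
      ≤ h ^ A.card * Fintype.card V ^ (Fintype.card I - A.card) := by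
  classical
  let K : I → Finset V := fun i => if hi : ∃ j ∈ A, ι j = i then H hi.choose else univ
  have hsub : (univ.filter fun r : I → V => ∀ j ∈ A, r (ι j) ∈ H j) ⊆ Fintype.piFinset K := by
    intro r hr
    rw [mem_filter] at hr
    rw [Fintype.mem_piFinset]
    intro i
    by_cases hi : ∃ j ∈ A, ι j = i
    · simp only [K, dif_pos hi]
      have := hr.2 _ hi.choose_spec.1
      rwa [hi.choose_spec.2] at this
    · simp only [K, dif_neg hi, mem_univ]
  refine (card_le_card hsub).trans ?_
  rw [Fintype.card_piFinset]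
  have h1 : ∏ i, (K i).card ≤ ∏ i, (if i ∈ A.image ι then h else Fintype.card V) := by
    refine prod_le_prod' fun i _ => ?_
    by_cases hi : ∃ j ∈ A, ι j = i
    · have : i ∈ A.image ι := mem_image.2 hi
      simp only [K, dif_pos hi, if_pos this]
      exact hH _ hi.choose_spec.1
    · have : i ∉ A.image ι := fun h' => hi (mem_image.1 h')
      simp only [K, dif_neg hi, if_neg this, card_univ, le_refl]
  refine h1.trans (le_of_eq ?_)
  rw [prod_ite, prod_const, prod_const]
  have e1 : (univ.filter fun i => i ∈ A.image ι) = A.image ι := by ext i; simp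
  have e2 : (univ.filter fun i => i ∉ A.image ι) = (A.image ι)ᶜ := by ext i; simp
  rw [e1, e2, card_compl, card_image_of_injOn hι]

/-- Union bound: few patterns, each unlikely, can all be avoided. -/
theorem exists_avoid {I V J P : Type*} [Fintype I] [DecidableEq I] [Fintype V] [DecidableEq V]
    [Nonempty V] (pats : Finset P) (s h : ℕ) (A : P → Finset J) (ι : P → J → I)
    (H : P → J → Finset V) (hA : ∀ π ∈ pats, (A π).card = s)
    (hι : ∀ π ∈ pats, Set.InjOn (ι π) (A π))
    (hH : ∀ π ∈ pats, ∀ j ∈ A π, (H π j).card ≤ h)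
    (hlt : pats.card * h ^ s < Fintype.card V ^ s) :
    ∃ r : I → V, ∀ π ∈ pats, ∃ j ∈ A π, r (ι π j) ∉ H π j := by
  classical
  by_contra hcon
  push Not at hcon
  have hV : 0 < Fintype.card V := Fintype.card_pos
  obtain ⟨π0, hπ0, -⟩ := hcon (fun _ => Classical.arbitrary V)
  have hs : s ≤ Fintype.card I := by
    rw [← hA π0 hπ0, ← card_image_of_injOn (hι π0 hπ0)]
    exact card_le_univ _
  have hcov : (univ : Finset (I → V)) ⊆
      pats.biUnion fun π => univ.filter fun r : I → V => ∀ j ∈ A π, r (ι π j) ∈ H π j := by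
    intro r _
    obtain ⟨π, hπ, hr⟩ := hcon r
    exact mem_biUnion.2 ⟨π, hπ, mem_filter.2 ⟨mem_univ _, hr⟩⟩
  have h1 := (card_le_card hcov).trans card_biUnion_le
  have h2 : ∑ π ∈ pats, (univ.filter fun r : I → V => ∀ j ∈ A π, r (ι π j) ∈ H π j).card
      ≤ pats.card * (h ^ s * Fintype.card V ^ (Fintype.card I - s)) := by
    rw [← smul_eq_mul]
    refine sum_le_card_nsmul _ _ _ fun π hπ => ?_
    have := card_pattern_le (A π) (ι π) (H π) h (hι π hπ) (hH π hπ)
    rwa [hA π hπ] at this
  have h3 : (univ : Finset (I → V)).card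
      = Fintype.card V ^ s * Fintype.card V ^ (Fintype.card I - s) := by
    rw [card_univ, Fintype.card_fun, ← pow_add, Nat.add_sub_cancel' hs]
  rw [h3] at h1
  have h4 := h1.trans h2
  rw [← mul_assoc] at h4
  exact absurd (Nat.le_of_mul_le_mul_right h4 (pow_pos hV _)) (not_le.2 hlt)

end Pool.Agent.MP_c9a892_co.H35
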